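import Pool.Agent.V11307.QGauss2

set_option autoImplicit false

/-!
# `∑_{k<5^a m} q^{-2k(k+1)} [2k,k]_q F_{2k+1}(q) ≡ 0 (mod [5^a]_q²)`
-/

namespace Pool.Agent.Results.MP_5b3c88_nt.SchurFib

open Polynomial Finset

noncomputable section

/-- The indeterminate `q` of the field `ℚ(q)`. -/
def q : RatFunc ℚ := RatFunc.X

/-- `[n]_q = ∑_{k<n} q^k`. -/
def qint (n : ℕ) : RatFunc ℚ := ∑ k ∈ range n, q ^ k

/-- The Gaussian binomial coefficient, as the quotient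
`∏_{0<r≤n} [r] / (∏_{0<s≤k} [s] ∏_{0<t≤n-k} [t])`. -/
def gauss (n k : ℕ) : RatFunc ℚ :=
  (∏ r ∈ Icc 1 n, qint r) / ((∏ s ∈ Icc 1 k, qint s) * ∏ t ∈ Icc 1 (n - k), qint t)

/-- Schur's `q`-Fibonacci polynomials. -/
def F : ℕ → RatFunc ℚ
  | 0 => 0
  | 1 => 1
  | n + 2 => F (n + 1) + q ^ (n + 1) * F n

/-- `S_{a,m}(q) = ∑_{k<5^a m} q^{-2k(k+1)} [2k,k]_q F_{2k+1}(q)`. -/
def S (a m : ℕ) : RatFunc ℚ :=
  ∑ k ∈ range (5 ^ a * m), q ^ (-(2 * (k : ℤ) * (k + 1))) * gauss (2 * k) k * F (2 * k + 1)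

/-- The embedding `ℤ[q] → ℚ(q)`. -/
def ι : ℤ[X] →+* RatFunc ℚ := (algebraMap ℚ[X] (RatFunc ℚ)).comp (Polynomial.mapRingHom (Int.castRingHom ℚ))

open V11307.Q V11307.GB

theorem ι_X : ι X = V11307.Q.q := by
  simp [ι]

theorem prodq (n : ℕ) : (∏ r ∈ Icc 1 n, qint r) * (1 - V11307.Q.q) ^ n =
    ∏ i ∈ range n, (1 - V11307.Q.q ^ (i + 1)) := by
  induction n with
  | zero => simp
  | succ n ih =>
    rw [Finset.prod_Icc_succ_top (by omega), prod_range_succ, ← ih]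
    have h2 : qint (n + 1) * (1 - V11307.Q.q) = 1 - V11307.Q.q ^ (n + 1) :=
      geom_sum_mul_neg V11307.Q.q (n + 1)
    rw [← h2]
    ring

theorem gauss_eq (k : ℕ) : gauss (2 * k) k = gb V11307.Q.q (2 * k) k := by
  have h0 : (1 : RatFunc ℚ) - V11307.Q.q ≠ 0 := by
    have := one_sub_ne (k := 1) one_pos
    rwa [pow_one] at this
  have h1 := prodq (2 * k)
  have h2 := prodq k
  have h3 := gb_prod V11307.Q.q k k
  have h4 : ∏ i ∈ range k, (1 - V11307.Q.q ^ (i + 1)) ≠ 0 := by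
    rw [prod_ne_zero_iff]
    intro i _
    exact one_sub_ne (Nat.succ_pos i)
  rw [← two_mul, ← h1, ← h2] at h3
  rw [← h2] at h4
  have h5 := left_ne_zero_of_mul h4
  rw [gauss, show 2 * k - k = k by omega, div_eq_iff (mul_ne_zero h5 h5)]
  have h6 : (∏ s ∈ Icc 1 (2 * k), qint s) * (1 - V11307.Q.q) ^ (2 * k) =
      (gb V11307.Q.q (2 * k) k * ((∏ s ∈ Icc 1 k, qint s) * ∏ t ∈ Icc 1 k, qint t)) *
        (1 - V11307.Q.q) ^ (2 * k) := by
    rw [← h3, two_mul k, pow_add]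
    ring
  exact mul_right_cancel₀ (pow_ne_zero _ h0) h6

theorem F_eq : ∀ n, F n = fibq V11307.Q.q n
  | 0 => rfl
  | 1 => rfl
  | n + 2 => by rw [F, fibq_rec, F_eq (n + 1), F_eq n]; rfl

/-- closed form of the sum -/
theorem sum_eq (N : ℕ) : V11307.Q.q ^ (2 * N ^ 2 + N) *
    ∑ k ∈ range N, q ^ (-(2 * (k : ℤ) * (k + 1))) * gauss (2 * k) k * F (2 * k + 1) =
      ZZ V11307.Q.q N := by
  induction N with
  | zero => simp [ZZ, AA, At, cc, fibq]
  | succ N ih =>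
    rw [sum_range_succ, mul_add, ZZ_rec q_ne, ← ih, ← gauss_eq, ← F_eq]
    have e1 : V11307.Q.q ^ (2 * (N + 1) ^ 2 + (N + 1)) = V11307.Q.q ^ (4 * N + 3) * V11307.Q.q ^ (2 * N ^ 2 + N) := by
      rw [← pow_add]; congr 1; ring
    have e2 : V11307.Q.q ^ (2 * (N + 1) ^ 2 + (N + 1)) * q ^ (-(2 * (N : ℤ) * (N + 1))) =
        V11307.Q.q ^ (3 * N + 3) := by
      have : (q : RatFunc ℚ) = V11307.Q.q := rfl
      rw [this, ← zpow_natCast V11307.Q.q (2 * (N + 1) ^ 2 + (N + 1)), ← zpow_natCast V11307.Q.q (3 * N + 3),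
        ← zpow_add₀ q_ne]
      congr 1
      push_cast
      ring
    rw [← e2, e1]
    ring

theorem ZZ_I {n : ℕ} (hn : 0 < n) (h5 : 5 ∣ n) {N : ℕ} (hN : n ∣ N) : I n 2 (ZZ V11307.Q.q N) := by
  have hF : ∀ k, fibq V11307.Q.q k ∈ R n := by
    intro k
    induction k using Nat.strong_induction_on with
    | _ k ih =>
      match k, ih with
      | 0, _ => exact zero_mem _
      | 1, _ => exact one_mem _
      | k + 2, ih => exact add_mem (ih _ (by omega)) (mul_mem (pow_mem q_mem _) (ih _ (by omega)))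
  rw [ZZ]
  exact I.R_mul q_mem ((I.R_mul (sub_mem (hF _) (hF _)) (AA_I hn h5 hN)).add
    (I.R_mul (mul_mem (pow_mem q_mem _) (hF _)) (BB_I hn h5 hN)))

/-- the numerator is an integer polynomial -/
theorem ZZ_int (N : ℕ) : ZZ V11307.Q.q N = ι (ZZ X N) := by
  have hgb : ∀ a b, ι (gb X a b) = gb V11307.Q.q a b := fun a b => by rw [map_gb, ι_X]
  have hcc : ∀ a b, ι (cc X a b) = cc V11307.Q.q a b := fun a b => by
    rw [cc, cc]; split_ifs
    · exact hgb _ _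
    · exact map_zero _
  have hfib : ∀ k, ι (fibq X k) = fibq V11307.Q.q k := by
    intro k
    induction k using Nat.strong_induction_on with
    | _ k ih =>
      match k, ih with
      | 0, _ => exact map_zero _
      | 1, _ => exact map_one _
      | k + 2, ih =>
        rw [fibq_rec, fibq_rec, map_add, map_mul, map_pow, ι_X, ih _ (by omega), ih _ (by omega)]
  rw [ZZ, ZZ, AA, BB, AA, BB]
  simp only [map_mul, map_add, map_sub, map_pow, map_sum, At, Bt, hcc, hfib, ι_X]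

theorem dvd_of_I {P : ℚ[X]} {n : ℕ} (hn : 0 < n) (h : I n 2 (algebraMap ℚ[X] (RatFunc ℚ) P)) :
    cyclotomic n ℚ ^ 2 ∣ P := by
  have := h.num_dvd hn
  rwa [RatFunc.num_algebraMap] at this

/-- The congruence for all positive integers `a`, `m`: some `q^N S_{a,m}(q)` is a polynomial with
integer coefficients divisible in `ℤ[q]` by `[5^a]_q²`. -/
theorem result (a m : ℕ) (_ha : 1 ≤ a) (_hm : 1 ≤ m) :
    ∃ (N : ℕ) (A : ℤ[X]), q ^ N * S a m = ι A ∧ (∑ i ∈ range (5 ^ a), (X : ℤ[X]) ^ i) ^ 2 ∣ A := by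
  set N := 5 ^ a * m with hN
  refine ⟨2 * N ^ 2 + N, ZZ X N, ?_, ?_⟩
  · rw [S, ← ZZ_int, ← sum_eq]; rfl
  · have h5 : (5 : ℕ) ^ a ≠ 0 := by positivity
    have hmon : ((∑ i ∈ range (5 ^ a), (X : ℤ[X]) ^ i) ^ 2).Monic :=
      (Polynomial.Monic.geom_sum' monic_X (by norm_num) h5).pow 2
    rw [← Polynomial.map_dvd_map (Int.castRingHom ℚ) Int.cast_injective hmon]
    have e1 : ((∑ i ∈ range (5 ^ a), (X : ℤ[X]) ^ i) ^ 2).map (Int.castRingHom ℚ) =
        ∏ d ∈ (5 ^ a).divisors.erase 1, cyclotomic d ℚ ^ 2 := by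
      rw [Finset.prod_pow, prod_cyclotomic_eq_geom_sum (Nat.pos_of_ne_zero h5), Polynomial.map_pow,
        Polynomial.map_sum]
      simp only [Polynomial.map_pow, Polynomial.map_X]
    rw [e1]
    refine Finset.prod_dvd_of_coprime ?_ ?_
    · intro d hd e he hde
      exact (cyclotomic.isCoprime_rat hde).pow
    · intro d hd
      rw [mem_erase, Nat.mem_divisors] at hd
      have hd0 : 0 < d := Nat.pos_of_ne_zero (by rintro rfl; exact h5 (zero_dvd_iff.1 hd.2.1))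
      obtain ⟨b, _, rfl⟩ := (Nat.dvd_prime_pow Nat.prime_five).1 hd.2.1
      have hb : b ≠ 0 := by rintro rfl; exact hd.1 (pow_zero _)
      apply dvd_of_I hd0
      have h6 := ZZ_I hd0 (dvd_pow_self 5 hb) (N := N) (hd.2.1.trans (dvd_mul_right _ _))
      rw [ZZ_int] at h6
      exact h6

end

end Pool.Agent.Results.MP_5b3c88_nt.SchurFib
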